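import Pool.Agent.Helper49.TP.StF

set_option autoImplicit false

namespace Pool.Agent.Helper41.TP

open Finset Pool.Agent.Helper49.TP Pool.Agent.Helper93.IA

/-- the function of two variables for the edge set `E`, `T` = number of triangles at a pair -/
private noncomputable def FE {n : ℕ} (δ τ q : ℝ) (E : Finset (Fin n × Fin n))
    (T : Fin n → Fin n → ℝ) (r c : Fin n) : ℝ :=
  (q * (if (r, c) ∈ E then 1 else 0) - δ * T r c / n) / (1 - δ * τ)

private lemma fe_main {n k : ℕ} (hn : 0 < n) (δ τ q : ℝ) (hδ : 0 < δ) (hδ8 : δ ≤ 1 / 8)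
    (_hτ0 : 0 ≤ τ) (hτ1 : τ ≤ 1) (hq1 : 1 ≤ q) (hq2 : q ≤ 4 / (3 + 8 * δ))
    (hqk : q * ((n : ℝ) - k) = n)
    (E : Finset (Fin n × Fin n)) (T : Fin n → Fin n → ℝ)
    (hT0 : ∀ r c, 0 ≤ T r c) (hTn : ∀ r c, T r c ≤ n) (hTE : ∀ r c, (r, c) ∉ E → T r c = 0)
    (hT1 : ∀ r, ∑ c, T r c = τ * (n : ℝ) ^ 2) (hT2 : ∀ c, ∑ r, T r c = τ * (n : ℝ) ^ 2)
    (hE : ∀ i, m1 E univ i = k ∧ m2 E univ i = k) :
    (∀ r c, 0 ≤ FE δ τ q E T r c ∧ FE δ τ q E T r c ≤ 4 / (3 + 4 * δ)) ∧ Ls (FE δ τ q E T) := by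
  have hn' : (0 : ℝ) < n := by exact_mod_cast hn
  have hdt : δ * τ ≤ δ := by nlinarith
  have h1 : 0 < 1 - δ * τ := by linarith
  have hTn' : ∀ r c, δ * T r c / n ≤ δ := by
    intro r c
    rw [div_le_iff₀ hn']
    exact mul_le_mul_of_nonneg_left (hTn r c) hδ.le
  have hT0' : ∀ r c, 0 ≤ δ * T r c / n := fun r c =>
    div_nonneg (mul_nonneg hδ.le (hT0 r c)) hn'.le
  refine ⟨?_, ?_, ?_⟩
  · intro r c
    unfold FE
    constructor
    · apply div_nonneg _ h1.le
      by_cases h : (r, c) ∈ E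
      · rw [if_pos h]
        have := hTn' r c
        linarith
      · rw [if_neg h, hTE r c h]
        simp
    · rw [div_le_iff₀ h1]
      have h2 : q * (if (r, c) ∈ E then 1 else 0) - δ * T r c / n ≤ q := by
        have := hT0' r c
        split_ifs
        · linarith
        · linarith
      refine h2.trans (hq2.trans ?_)
      rw [div_le_iff₀ (by positivity), mul_assoc, div_mul_eq_mul_div, le_div_iff₀ (by positivity)]
      have h3 : 3 + 4 * δ ≤ (1 - δ) * (3 + 8 * δ) := by nlinarith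
      have h4 : (1 - δ) * (3 + 8 * δ) ≤ (1 - δ * τ) * (3 + 8 * δ) :=
        mul_le_mul_of_nonneg_right (by linarith) (by positivity)
      linarith
  · intro r
    unfold FE
    rw [← Finset.sum_div, div_eq_iff h1.ne', Finset.sum_sub_distrib, ← Finset.mul_sum,
      ← Pool.Agent.Helper38.IA.d1_eq_sum, ← Finset.sum_div, ← Finset.mul_sum, hT1]
    have h5 := Pool.Agent.Helper38.IA.d1_add_m1 E r
    rw [(hE r).1, Fintype.card_fin] at h5
    have h6 : (d1 E r : ℝ) = n - k := by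
      have h7 : ((d1 E r + k : ℕ) : ℝ) = n := by rw [h5]
      push_cast at h7
      linarith
    rw [h6, hqk]
    field_simp
  · intro c
    unfold FE
    rw [← Finset.sum_div, div_eq_iff h1.ne', Finset.sum_sub_distrib, ← Finset.mul_sum,
      ← Pool.Agent.Helper38.IA.d2_eq_sum, ← Finset.sum_div, ← Finset.mul_sum, hT2]
    have h5 := Pool.Agent.Helper38.IA.d2_add_m2 E c
    rw [(hE c).2, Fintype.card_fin] at h5
    have h6 : (d2 E c : ℝ) = n - k := by
      have h7 : ((d2 E c + k : ℕ) : ℝ) = n := by rw [h5]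
      push_cast at h7
      linarith
    rw [h6, hqk]
    field_simp

private lemma ind_nn {n : ℕ} (A B C : Finset (Fin n × Fin n)) (r c s : Fin n) :
    0 ≤ ind A B C r c s := by
  unfold ind; split_ifs <;> norm_num

private lemma ind_le {n : ℕ} (A B C : Finset (Fin n × Fin n)) (r c s : Fin n) :
    ind A B C r c s ≤ 1 := by
  unfold ind; split_ifs <;> norm_num

private lemma sum_fin_le {n : ℕ} (f : Fin n → ℝ) (h : ∀ i, f i ≤ 1) : ∑ i, f i ≤ n := by
  calc ∑ i, f i ≤ ∑ _i : Fin n, (1 : ℝ) := Finset.sum_le_sum fun i _ => h i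
    _ = n := by simp

private lemma ind_inv {n : ℕ} (A B C : Finset (Fin n × Fin n)) (h : P3 n) (hh : AuG A B C h)
    (r c s : Fin n) : ind A B C (h.1 r) (h.2.1 c) (h.2.2 s) = ind A B C r c s := by
  unfold ind
  refine if_congr ?_ rfl rfl
  rw [hh.1, hh.2.1, hh.2.2]

private lemma edge_sum {n : ℕ} (hn : (0 : ℝ) < n) (δ τ q e x T : ℝ) (hq : 1 ≤ q)
    (h1 : 0 < 1 - δ * τ) (hx : x = n * (1 + 1 * ((q * e - δ * T / n) / (1 - δ * τ) - 1))) :
    ((1 - δ * τ) * x + δ * T) / q = n * e := by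
  rw [hx, div_eq_iff (by linarith)]
  field_simp
  ring

theorem hFTG : StFTG := by
  intro hF hT δ n k A B C hδ hδ8 hn hk hm hTr
  have hn' : (0 : ℝ) < n := by exact_mod_cast hn
  obtain ⟨τ, hτ0, hτ1, t1, t2, t3⟩ := hT n A B C hn hTr
  have hk0 : (0 : ℝ) ≤ k := Nat.cast_nonneg k
  have hnk : (3 / 4 + 2 * δ) * (n : ℝ) ≤ n - k := by linarith
  have hnk0 : (0 : ℝ) < (n : ℝ) - k := lt_of_lt_of_le (by positivity) hnk
  set q : ℝ := n / (n - k) with hqd
  have hq1 : 1 ≤ q := by rw [hqd, le_div_iff₀ hnk0]; linarith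
  have hq2 : q ≤ 4 / (3 + 8 * δ) := by
    rw [hqd, div_le_div_iff₀ hnk0 (by positivity)]
    linarith
  have hqk : q * ((n : ℝ) - k) = n := by rw [hqd]; field_simp
  have hq0 : 0 < q := by linarith
  have hdt : δ * τ ≤ δ := by nlinarith
  have hdt0 : 0 ≤ δ * τ := by positivity
  have h1 : 0 < 1 - δ * τ := by linarith
  set TA : Fin n → Fin n → ℝ := fun r c => ∑ s, ind A B C r c s with hTA
  set TB : Fin n → Fin n → ℝ := fun c s => ∑ r, ind A B C r c s with hTB
  set TC : Fin n → Fin n → ℝ := fun s r => ∑ c, ind A B C r c s with hTC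
  have fA := fe_main (k := k) hn δ τ q hδ hδ8 hτ0 hτ1 hq1 hq2 hqk A TA
    (fun r c => Finset.sum_nonneg fun s _ => ind_nn A B C r c s)
    (fun r c => sum_fin_le _ fun s => ind_le A B C r c s)
    (fun r c h => Finset.sum_eq_zero fun s _ => by
      unfold ind; exact if_neg (fun h' => h h'.1))
    (fun r => t1 r) (fun c => t2 c) (fun i => ⟨(hm i).1, (hm i).2.1⟩)
  have fB := fe_main (k := k) hn δ τ q hδ hδ8 hτ0 hτ1 hq1 hq2 hqk B TB
    (fun c s => Finset.sum_nonneg fun r _ => ind_nn A B C r c s)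
    (fun c s => sum_fin_le _ fun r => ind_le A B C r c s)
    (fun c s h => Finset.sum_eq_zero fun r _ => by
      unfold ind; exact if_neg (fun h' => h h'.2.1))
    (fun c => by rw [← t2 c]; exact Finset.sum_comm)
    (fun s => by rw [← t3 s]; exact Finset.sum_comm)
    (fun i => ⟨(hm i).2.2.1, (hm i).2.2.2.1⟩)
  have fC := fe_main (k := k) hn δ τ q hδ hδ8 hτ0 hτ1 hq1 hq2 hqk C TC
    (fun s r => Finset.sum_nonneg fun c _ => ind_nn A B C r c s)
    (fun s r => sum_fin_le _ fun c => ind_le A B C r c s)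
    (fun s r h => Finset.sum_eq_zero fun c _ => by
      unfold ind; exact if_neg (fun h' => h h'.2.2))
    (fun s => t3 s)
    (fun r => by rw [← t1 r]; exact Finset.sum_comm)
    (fun i => ⟨(hm i).2.2.2.2.1, (hm i).2.2.2.2.2⟩)
  have hPr : ∀ h, AuG A B C h → Pr2 (FE δ τ q A TA) (FE δ τ q B TB) (FE δ τ q C TC) h := by
    intro h hh
    refine ⟨?_, ?_, ?_⟩
    · intro r c
      have e1 : TA (h.1 r) (h.2.1 c) = TA r c := by
        simp only [hTA]
        rw [← Equiv.sum_comp h.2.2]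
        exact Finset.sum_congr rfl fun s _ => ind_inv A B C h hh r c s
      unfold FE
      rw [e1, if_congr (hh.1 r c) rfl rfl]
    · intro c s
      have e1 : TB (h.2.1 c) (h.2.2 s) = TB c s := by
        simp only [hTB]
        rw [← Equiv.sum_comp h.1]
        exact Finset.sum_congr rfl fun r _ => ind_inv A B C h hh r c s
      unfold FE
      rw [e1, if_congr (hh.2.1 c s) rfl rfl]
    · intro s r
      have e1 : TC (h.2.2 s) (h.1 r) = TC s r := by
        simp only [hTC]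
        rw [← Equiv.sum_comp h.2.1]
        exact Finset.sum_congr rfl fun c _ => ind_inv A B C h hh r c s
      unfold FE
      rw [e1, if_congr (hh.2.2 s r) rfl rfl]
  have hTr' : Tr3 (Pr2 (FE δ τ q A TA) (FE δ τ q B TB) (FE δ τ q C TC)) := by
    obtain ⟨a1, a2, a3⟩ := hTr
    refine ⟨?_, ?_, ?_⟩
    · intro r r'
      obtain ⟨h, h2, h3⟩ := a1 r r'
      exact ⟨h, hPr h h2, h3⟩
    · intro r r'
      obtain ⟨h, h2, h3⟩ := a2 r r'
      exact ⟨h, hPr h h2, h3⟩
    · intro r r'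
      obtain ⟨h, h2, h3⟩ := a3 r r'
      exact ⟨h, hPr h h2, h3⟩
  have hFF : 4 / (3 + 4 * δ) + (4 / (3 + 4 * δ)) ^ 2 / (1 / δ) ≤ 4 / 3 := by
    have e : 4 / (3 + 4 * δ) + (4 / (3 + 4 * δ)) ^ 2 / (1 / δ) =
        (12 + 32 * δ) / (3 + 4 * δ) ^ 2 := by
      field_simp
      ring
    rw [e, div_le_div_iff₀ (by positivity) (by norm_num)]
    nlinarith
  have hΛ : (1 : ℝ) ≤ 1 / δ := by rw [le_div_iff₀ hδ]; linarith
  obtain ⟨x, hx0, hxA, hxB, hxC⟩ := hF n (4 / (3 + 4 * δ)) (1 / δ) _ _ _ hn hΛ hFF fA.1 fB.1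
    fC.1 fA.2 fB.2 fC.2 hTr'
  set X : Fin n → Fin n → Fin n → ℝ :=
    fun r c s => ((1 - δ * τ) * x r c s + δ * ind A B C r c s) / q with hX
  have sA : ∀ r c, ∑ s, X r c s = n * (if (r, c) ∈ A then 1 else 0) := by
    intro r c
    simp only [hX]
    rw [← Finset.sum_div, Finset.sum_add_distrib, ← Finset.mul_sum, ← Finset.mul_sum]
    exact edge_sum hn' δ τ q _ _ _ hq1 h1 (hxA r c)
  have sB : ∀ c s, ∑ r, X r c s = n * (if (c, s) ∈ B then 1 else 0) := by
    intro c s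
    simp only [hX]
    rw [← Finset.sum_div, Finset.sum_add_distrib, ← Finset.mul_sum, ← Finset.mul_sum]
    exact edge_sum hn' δ τ q _ _ _ hq1 h1 (hxB c s)
  have sC : ∀ s r, ∑ c, X r c s = n * (if (s, r) ∈ C then 1 else 0) := by
    intro s r
    simp only [hX]
    rw [← Finset.sum_div, Finset.sum_add_distrib, ← Finset.mul_sum, ← Finset.mul_sum]
    exact edge_sum hn' δ τ q _ _ _ hq1 h1 (hxC s r)
  have X0 : ∀ r c s, 0 ≤ X r c s := by
    intro r c s
    exact div_nonneg (add_nonneg (mul_nonneg h1.le (hx0 r c s).1)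
      (mul_nonneg hδ.le (ind_nn A B C r c s))) hq0.le
  refine ⟨X, ⟨?_, ?_, ?_⟩, ?_, ?_, ?_⟩
  · intro r c s
    refine ⟨X0 r c s, ?_⟩
    have e1 : (1 - δ * τ) * x r c s ≤ 1 / δ := by
      have := (hx0 r c s).2
      have h0 := (hx0 r c s).1
      nlinarith
    have e2 : δ * ind A B C r c s ≤ 1 := by
      have := ind_le A B C r c s
      nlinarith
    have e3 : 0 ≤ (1 - δ * τ) * x r c s := mul_nonneg h1.le (hx0 r c s).1
    have e4 : 0 ≤ δ * ind A B C r c s := mul_nonneg hδ.le (ind_nn A B C r c s)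
    calc X r c s ≤ (1 - δ * τ) * x r c s + δ * ind A B C r c s :=
          div_le_self (add_nonneg e3 e4) hq1
      _ ≤ 1 / δ + 1 := add_le_add e1 e2
  · intro r c s hne
    refine ⟨?_, ?_, ?_⟩
    · by_contra h
      have h2 := sA r c
      rw [if_neg h, mul_zero, Finset.sum_eq_zero_iff_of_nonneg fun s _ => X0 r c s] at h2
      exact hne (h2 s (mem_univ _))
    · by_contra h
      have h2 := sB c s
      rw [if_neg h, mul_zero, Finset.sum_eq_zero_iff_of_nonneg fun r _ => X0 r c s] at h2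
      exact hne (h2 r (mem_univ _))
    · by_contra h
      have h2 := sC s r
      rw [if_neg h, mul_zero, Finset.sum_eq_zero_iff_of_nonneg fun c _ => X0 r c s] at h2
      exact hne (h2 c (mem_univ _))
  · intro r c s ht
    have h2 : ind A B C r c s = 1 := if_pos ht
    have e3 : 0 ≤ (1 - δ * τ) * x r c s := mul_nonneg h1.le (hx0 r c s).1
    simp only [hX]
    rw [h2, le_div_iff₀ hq0]
    have h3 : q ≤ 4 / 3 := hq2.trans (div_le_div_of_nonneg_left (by norm_num) (by norm_num)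
      (by linarith))
    nlinarith
  · intro a b h
    rw [sA, if_pos h, mul_one]
  · intro a b h
    rw [sB, if_pos h, mul_one]
  · intro a b h
    rw [sC, if_pos h, mul_one]

end Pool.Agent.Helper41.TP
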