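import Pool.Agent.Helper49.TP.StM

set_option autoImplicit false

namespace Pool.Agent.Helper41.TP

open Finset Pool.Agent.Helper49.TP Pool.Agent.Helper93.IA Pool.Agent.Helper38.IA

private lemma st_rot {α β γ : Type} [Fintype α] [Fintype β] [Fintype γ] [DecidableEq α]
    [DecidableEq β] [DecidableEq γ] (A : Finset (α × β)) (B : Finset (β × γ))
    (C : Finset (γ × α)) (w : α → β → γ → ℝ) :
    ST B C A (fun b c a => w a b c) = ST A B C w := by
  unfold Pool.Agent.Helper49.TP.ST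
  rw [Finset.sum_comm (s := (univ : Finset α)) (t := (univ : Finset β))]
  refine Finset.sum_congr rfl fun b _ => ?_
  rw [Finset.sum_comm (s := (univ : Finset α)) (t := (univ : Finset γ))]
  refine Finset.sum_congr rfl fun c _ => Finset.sum_congr rfl fun a _ => ?_
  refine if_congr ?_ rfl rfl
  constructor
  · rintro ⟨h1, h2, h3⟩; exact ⟨h3, h1, h2⟩
  · rintro ⟨h1, h2, h3⟩; exact ⟨h2, h3, h1⟩

private lemma st_nonneg {α β γ : Type} [Fintype α] [Fintype β] [Fintype γ] [DecidableEq α]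
    [DecidableEq β] [DecidableEq γ] (A : Finset (α × β)) (B : Finset (β × γ))
    (C : Finset (γ × α)) (w : α → β → γ → ℝ) : 0 ≤ ST A B C w := by
  unfold Pool.Agent.Helper49.TP.ST
  refine Finset.sum_nonneg fun a _ => Finset.sum_nonneg fun b _ => Finset.sum_nonneg fun c _ => ?_
  split_ifs
  · exact abs_nonneg _
  · exact le_rfl

private lemma st_edge {α β γ : Type} [Fintype α] [Fintype β] [Fintype γ] [DecidableEq α]
    [DecidableEq β] [DecidableEq γ] (A : Finset (α × β)) (B : Finset (β × γ))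
    (C : Finset (γ × α)) (e : α → β → ℝ) (n : ℕ) (hγ : Fintype.card γ = n) :
    ST A B C (fun a b _ => e a b) ≤ n * ∑ a, ∑ b, (if (a, b) ∈ A then |e a b| else 0) := by
  unfold Pool.Agent.Helper49.TP.ST
  rw [Finset.mul_sum]
  refine Finset.sum_le_sum fun a _ => ?_
  rw [Finset.mul_sum]
  refine Finset.sum_le_sum fun b _ => ?_
  have h1 : ∀ c : γ, (if (a, b) ∈ A ∧ (b, c) ∈ B ∧ (c, a) ∈ C then |e a b| else 0) ≤
      (if (a, b) ∈ A then |e a b| else 0) := by
    intro c
    by_cases h : (a, b) ∈ A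
    · rw [if_pos h]
      split_ifs
      · exact le_rfl
      · exact abs_nonneg _
    · rw [if_neg h, if_neg (fun h' => h h'.1)]
  refine (Finset.sum_le_sum fun c _ => h1 c).trans ?_
  rw [Finset.sum_const, Finset.card_univ, hγ, nsmul_eq_mul]

private lemma st_tri {α β γ : Type} [Fintype α] [Fintype β] [Fintype γ] [DecidableEq α]
    [DecidableEq β] [DecidableEq γ] (A : Finset (α × β)) (B : Finset (β × γ))
    (C : Finset (γ × α)) (w w1 w2 w3 w4 : α → β → γ → ℝ)
    (h : ∀ a b c, |w a b c| ≤ |w1 a b c| + |w2 a b c| + |w3 a b c| + |w4 a b c|) :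
    ST A B C w ≤ ST A B C w1 + ST A B C w2 + ST A B C w3 + ST A B C w4 := by
  unfold Pool.Agent.Helper49.TP.ST
  rw [← Finset.sum_add_distrib, ← Finset.sum_add_distrib, ← Finset.sum_add_distrib]
  refine Finset.sum_le_sum fun a _ => ?_
  rw [← Finset.sum_add_distrib, ← Finset.sum_add_distrib, ← Finset.sum_add_distrib]
  refine Finset.sum_le_sum fun b _ => ?_
  rw [← Finset.sum_add_distrib, ← Finset.sum_add_distrib, ← Finset.sum_add_distrib]
  refine Finset.sum_le_sum fun c _ => ?_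
  split_ifs
  · exact h a b c
  · simp

private lemma gd_part {α β : Type} [Fintype α] [Fintype β] [DecidableEq α] [DecidableEq β]
    (A : Finset (α × β)) (e e' : α → β → ℝ) (P : α → ℝ) (Q : β → ℝ) (n : ℕ)
    (hα : Fintype.card α = n) (hβ : Fintype.card β = n)
    (h : ∀ a b, |e a b| ≤ |e' a b| + P a + Q b) (hP : ∀ a, 0 ≤ P a) (hQ : ∀ b, 0 ≤ Q b) :
    ∑ a, ∑ b, (if (a, b) ∈ A then |e a b| else 0) ≤
      ∑ a, ∑ b, (if (a, b) ∈ A then |e' a b| else 0) + n * ∑ a, P a + n * ∑ b, Q b := by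
  have h1 : ∀ a b, (if (a, b) ∈ A then |e a b| else 0) ≤
      (if (a, b) ∈ A then |e' a b| else 0) + P a + Q b := by
    intro a b
    split_ifs
    · exact h a b
    · have := hP a; have := hQ b; linarith
  refine (Finset.sum_le_sum fun a _ => Finset.sum_le_sum fun b _ => h1 a b).trans (le_of_eq ?_)
  simp only [Finset.sum_add_distrib, Finset.sum_const, Finset.card_univ, hα, hβ, nsmul_eq_mul,
    ← Finset.mul_sum]

/-- `StP2b` and `StP3b` are implications with the premises `StP2a` and `StP3a`, which are therefore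
extra hypotheses here. -/
theorem hP4 (h2a : StP2a) (h3a : StP3a) : StP4 := by
  intro hP1 hP2b' hP3b' α β γ _ _ _ _ _ _ n δ A B C gA gB gC hn hα hβ hγ hδ hδ4 hMis
  have hP2b := hP2b' h2a
  have hP3b := hP3b' h3a
  have hn' : (0 : ℝ) < n := by exact_mod_cast hn
  obtain ⟨hA, hB, hC1, hC2⟩ := hMis
  have hMA : Mis A B C ((1 / 4 - δ) * n) := ⟨hA, hB, hC1, hC2⟩
  have hMB : Mis B C A ((1 / 4 - δ) * n) := ⟨hB, ⟨hC1, hC2⟩, hA.1, hA.2⟩
  have hMC : Mis C A B ((1 / 4 - δ) * n) := ⟨⟨hC1, hC2⟩, hA, hB.1, hB.2⟩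
  have hle : (1 / 4 - δ) * (n : ℝ) ≤ n / 4 := by nlinarith
  have hA' : (∀ a, (m1 A univ a : ℝ) ≤ n / 4) ∧ ∀ b, (m2 A univ b : ℝ) ≤ n / 4 :=
    ⟨fun a => (hA.1 a).trans hle, fun b => (hA.2 b).trans hle⟩
  have hB' : (∀ a, (m1 B univ a : ℝ) ≤ n / 4) ∧ ∀ b, (m2 B univ b : ℝ) ≤ n / 4 :=
    ⟨fun a => (hB.1 a).trans hle, fun b => (hB.2 b).trans hle⟩
  have hC' : (∀ a, (m1 C univ a : ℝ) ≤ n / 4) ∧ ∀ b, (m2 C univ b : ℝ) ≤ n / 4 :=
    ⟨fun a => (hC1 a).trans hle, fun b => (hC2 b).trans hle⟩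
  have hM4 : Mis A B C ((n : ℝ) / 4) := ⟨hA', hB', hC'.1, hC'.2⟩
  obtain ⟨p, q, hpq⟩ := hP2b α β n A gA hn hα hβ hA'.1 hA'.2
  obtain ⟨q', u', hqu⟩ := hP2b β γ n B gB hn hβ hγ hB'.1 hB'.2
  obtain ⟨u'', p'', hup⟩ := hP2b γ α n C gC hn hγ hα hC'.1 hC'.2
  have h1 := hP1 α β γ n δ A B C gA gB gC hn hα hβ hγ hδ hMA
  have h2 := hP1 β γ α n δ B C A gB gC gA hn hβ hγ hα hδ hMB
  have h3 := hP1 γ α β n δ C A B gC gA gB hn hγ hα hβ hδ hMC
  set X0 := ST A B C (fun a b c => gA a b + gB b c + gC c a) with hX0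
  have e2 : ST B C A (fun b c a => gB b c + gC c a + gA a b) = X0 := by
    rw [hX0, ← st_rot A B C]
    congr 1
    funext b c a; ring
  have e3 : ST C A B (fun c a b => gC c a + gA a b + gB b c) = X0 := by
    rw [hX0, ← st_rot A B C, ← st_rot B C A]
    congr 1
    funext c a b; ring
  rw [e2] at h2
  rw [e3] at h3
  have hX0n : 0 ≤ X0 := st_nonneg _ _ _ _
  set EA := ∑ a, ∑ b, (if (a, b) ∈ A then |gA a b - (p a - q b)| else 0) with hEA
  set EB := ∑ b, ∑ c, (if (b, c) ∈ B then |gB b c - (q' b - u' c)| else 0) with hEB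
  set EC := ∑ c, ∑ a, (if (c, a) ∈ C then |gC c a - (u'' c - p'' a)| else 0) with hEC
  have hb : ∀ Y E : ℝ, E ≤ 35 / (n : ℝ) ^ 2 * Y → Y ≤ n / δ * X0 → E ≤ 35 / (n * δ) * X0 := by
    intro Y E h h'
    have h4 : 35 / (n : ℝ) ^ 2 * Y ≤ 35 / (n : ℝ) ^ 2 * (n / δ * X0) :=
      mul_le_mul_of_nonneg_left h' (by positivity)
    have h5 : 35 / (n : ℝ) ^ 2 * (n / δ * X0) = 35 / (n * δ) * X0 := by
      field_simp
    linarith
  have hEA' := hb _ _ hpq h1
  have hEB' := hb _ _ hqu h2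
  have hEC' := hb _ _ hup h3
  obtain ⟨P0, Q0, S0, h0, hPQS⟩ := hP3b α β γ n A B C (fun a => p a - p'' a)
    (fun b => q' b - q b) (fun c => u'' c - u' c) hn hα hβ hγ hM4
  set X := ST A B C (fun a b c => (p a - p'' a) + (q' b - q b) + (u'' c - u' c)) with hX
  have hXb : X ≤ X0 + n * EA + n * EB + n * EC := by
    have h4 := st_tri A B C (fun a b c => (p a - p'' a) + (q' b - q b) + (u'' c - u' c))
      (fun a b c => gA a b + gB b c + gC c a) (fun a b c => gA a b - (p a - q b))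
      (fun a b c => gB b c - (q' b - u' c)) (fun a b c => gC c a - (u'' c - p'' a)) (by
        intro a b c
        have e : (p a - p'' a) + (q' b - q b) + (u'' c - u' c) =
          (gA a b + gB b c + gC c a) - (gA a b - (p a - q b)) - (gB b c - (q' b - u' c)) -
            (gC c a - (u'' c - p'' a)) := by ring
        rw [e]
        refine (abs_sub _ _).trans (add_le_add ?_ le_rfl)
        refine (abs_sub _ _).trans (add_le_add ?_ le_rfl)
        exact abs_sub _ _)
    have h5 := st_edge A B C (fun a b => gA a b - (p a - q b)) n hγ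
    have h6 := st_edge B C A (fun b c => gB b c - (q' b - u' c)) n hα
    have h7 := st_edge C A B (fun c a => gC c a - (u'' c - p'' a)) n hβ
    rw [st_rot A B C (fun a b c => gB b c - (q' b - u' c))] at h6
    have e7 : ST C A B (fun c a _ => gC c a - (u'' c - p'' a)) =
        ST A B C (fun a b c => gC c a - (u'' c - p'' a)) := by
      rw [← st_rot A B C, ← st_rot B C A]
    rw [e7] at h7
    linarith
  refine ⟨p, q, fun c => u' c - Q0, ?_⟩
  unfold Gd
  have g2 := gd_part B (fun b c => gB b c - (q b - (u' c - Q0)))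
    (fun b c => gB b c - (q' b - u' c)) (fun b => |(q' b - q b) - Q0|) (fun _ => 0) n hβ hγ (by
      intro b c
      have e : gB b c - (q b - (u' c - Q0)) = (gB b c - (q' b - u' c)) + ((q' b - q b) - Q0) := by
        ring
      rw [e, add_zero]
      exact abs_add_le _ _) (fun b => abs_nonneg _) (fun c => le_rfl)
  have g3 := gd_part C (fun c a => gC c a - (u' c - Q0 - p a))
    (fun c a => gC c a - (u'' c - p'' a)) (fun c => |(u'' c - u' c) - S0|)
    (fun a => |(p a - p'' a) - P0|) n hγ hα (by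
      intro c a
      have e : gC c a - (u' c - Q0 - p a) =
          (gC c a - (u'' c - p'' a)) + ((u'' c - u' c) - S0) + ((p a - p'' a) - P0) := by
        linear_combination h0
      rw [e]
      exact (abs_add_le _ _).trans (add_le_add (abs_add_le _ _) le_rfl))
      (fun c => abs_nonneg _) (fun a => abs_nonneg _)
  simp only [Finset.sum_const_zero, mul_zero, add_zero] at g2
  rw [← hEB] at g2
  rw [← hEC] at g3
  set sP := ∑ a, |(p a - p'' a) - P0|
  set sQ := ∑ b, |(q' b - q b) - Q0|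
  set sS := ∑ c, |(u'' c - u' c) - S0|
  have hs : (n : ℝ) * (sP + sQ + sS) ≤ n * (200 / (n : ℝ) ^ 2 * X) :=
    mul_le_mul_of_nonneg_left hPQS hn'.le
  have hs2 : (n : ℝ) * (200 / (n : ℝ) ^ 2 * X) ≤
      n * (200 / (n : ℝ) ^ 2 * (X0 + n * (105 / (n * δ) * X0))) := by
    refine mul_le_mul_of_nonneg_left (mul_le_mul_of_nonneg_left ?_ (by positivity)) hn'.le
    have h8 : (n : ℝ) * EA + n * EB + n * EC ≤ n * (105 / (n * δ) * X0) := by
      have h9 : (n : ℝ) * (EA + EB + EC) ≤ n * (105 / (n * δ) * X0) := by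
        refine mul_le_mul_of_nonneg_left ?_ hn'.le
        have h10 : 105 / (n * δ) * X0 = 35 / (n * δ) * X0 + 35 / (n * δ) * X0 +
          35 / (n * δ) * X0 := by ring
        rw [h10]
        linarith
      linarith
    linarith
  have hfin : 105 / (n * δ) * X0 + n * (200 / (n : ℝ) ^ 2 * (X0 + n * (105 / (n * δ) * X0))) ≤
      50000 / (δ * n) * X0 := by
    have e : 105 / (n * δ) * X0 + n * (200 / (n : ℝ) ^ 2 * (X0 + n * (105 / (n * δ) * X0))) =
        (21105 + 200 * δ) / (δ * n) * X0 := by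
      field_simp
      ring
    rw [e]
    refine mul_le_mul_of_nonneg_right ?_ hX0n
    exact div_le_div_of_nonneg_right (by linarith) (by positivity)
  have h10 : 105 / (n * δ) * X0 = 35 / (n * δ) * X0 + 35 / (n * δ) * X0 +
    35 / (n * δ) * X0 := by ring
  linarith

end Pool.Agent.Helper41.TP
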